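import Mathlib
import Pool.Agent.Lib.MP_233c29_an.Defs
import Pool.Agent.Lib.MP_233c29_an.Main

namespace Pool.Agent.Results.MP_233c29_an.NotFDC

open Pool.Agent.Lib.MP_233c29_an

theorem result : ∃ X Y : MS, ULF X ∧ ULF Y ∧ FDC Y ∧ ¬ FDC X ∧
    ∃ Φ : Bop X →⋆ₙₐ[ℂ] Bop Y, Function.Injective Φ ∧ Set.MapsTo Φ (Roe X) (Roe Y) :=
  ⟨mX.ms, mY.ms, ulfX, ulfY, fdcY, tower.not_FDC, main⟩

end Pool.Agent.Results.MP_233c29_an.NotFDC
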